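import Pool.Agent.helper71.DSW.SpecC

set_option autoImplicit false

/-! Row dsw:KEX (helper98): the expectation of `kap`. -/

namespace Pool.Agent.DSW

open Equiv Finset Function Pool.Agent.helper48.PP
open scoped ENNReal Classical

theorem KEX_bin {L : ℕ} (Q : Finset (Fin L)) {g g' : Fin (L + 1) → ℕ} (h : ∀ j, g j ≤ g' j) :
    bin Q g ≤ bin Q g' := by
  unfold bin
  refine Nat.choose_le_choose _ (Nat.add_le_add_right ?_ _)
  exact Finset.sum_le_sum fun j _ => h j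

theorem KEX_n1 {L : ℕ} {a a' c c' : Fin L → Fin (L + 1) → ℕ} (ha : ∀ b j, a b j ≤ a' b j)
    (hc : ∀ b j, c b j ≤ c' b j) (u : Fin L × Fin L) : n1 a c u ≤ n1 a' c' u := by
  unfold n1
  have h1 := ha u.1 u.2.castSucc
  have h2 := hc u.2 u.1.castSucc
  have h3 := hc u.2 u.1.succ
  exact Nat.add_le_add (Nat.mul_le_mul h1 (by omega)) h2

theorem KEX_n2 {L : ℕ} {a a' c c' : Fin L → Fin (L + 1) → ℕ} (ha : ∀ b j, a b j ≤ a' b j)
    (hc : ∀ b j, c b j ≤ c' b j) (q : Fin L × Fin L × Fin L) : n2 a c q ≤ n2 a' c' q := by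
  unfold n2
  have h1 := ha q.1 q.2.2.castSucc
  have h2 := ha q.2.1 q.2.2.succ
  have h3 := hc q.2.2 q.2.1.succ
  exact Nat.mul_le_mul (Nat.mul_le_mul h1 (by omega)) (Nat.choose_le_choose _ (by omega))

theorem KEX_n3 {L : ℕ} {a a' c c' : Fin L → Fin (L + 1) → ℕ} (ha : ∀ b j, a b j ≤ a' b j)
    (hc : ∀ b j, c b j ≤ c' b j) (R : Finset (Fin L × Fin L)) : n3 a c R ≤ n3 a' c' R := by
  unfold n3
  exact Nat.mul_le_mul (Finset.prod_le_prod' fun b _ => KEX_bin _ (ha b))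
    (Finset.prod_le_prod' fun i _ => KEX_bin _ (hc i))

theorem KEX_anti {ι : Type} {n : (ι → ℕ) → ℕ} (hn : ∀ x y : ι → ℕ, x ≤ y → n x ≤ n y) {q : ℝ}
    (h0 : 0 ≤ q) (h1 : q ≤ 1) :
    Antitone (fun x : ι → ℕ => ENNReal.ofReal ((1 - q) ^ n x)) := by
  intro x y hxy
  apply ENNReal.ofReal_le_ofReal
  exact pow_le_pow_of_le_one (by linarith) (by linarith) (hn x y hxy)

theorem KEX_VP (L : ℕ) : (VP L).card ≤ L * L := by
  have h : (VP L).card ≤ (Finset.univ : Finset (Fin L × Fin L)).card := by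
    refine Finset.card_le_card_of_injOn (fun q => (q.1, q.2.2)) (fun _ _ => Finset.mem_univ _) ?_
    rintro ⟨b, b', i⟩ hq ⟨d, d', j⟩ hq' h
    have h1 : (b : ℕ) + 1 = (b' : ℕ) := (Finset.mem_filter.1 hq).2
    have h2 : (d : ℕ) + 1 = (d' : ℕ) := (Finset.mem_filter.1 hq').2
    have h3 : b = d := congrArg Prod.fst h
    have h4 : i = j := congrArg Prod.snd h
    subst h3 h4
    have h5 : b' = d' := Fin.ext (by omega)
    rw [h5]
  rw [Finset.card_univ, Fintype.card_prod, Fintype.card_fin] at h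
  exact h

theorem KEX (hHAR : HAR_stmt) (hSPL : SPL_stmt) (hKR2 : KR2_stmt) (hKR3 : KR3_stmt)
    (hBER : BER_stmt) (hPRD : PRD_stmt) (hGEO : GEO_stmt) : KEX_stmt := by
  intro L H θ hH h0 h1
  have hHr : (1 : ℝ) ≤ (H : ℝ) := by exact_mod_cast hH
  have hHp : (0 : ℝ) < (H : ℝ) := by linarith
  set p : ℝ := θ / (H : ℝ) ^ 2 with hp
  have hp0 : 0 ≤ p := by positivity
  have hp1 : p ≤ 1 := by
    rw [hp, div_le_one (by positivity)]
    nlinarith
  have hpr : ∀ r : ℕ, 0 ≤ p ^ r ∧ p ^ r ≤ 1 := fun r =>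
    ⟨pow_nonneg hp0 r, pow_le_one₀ hp0 hp1⟩
  have hone : ∑' x : Bool × Fin L × Fin (L + 1) → ℕ, ∏ i, wt H (x i) = 1 := by
    rw [hPRD _ (fun _ j => wt H j)]
    simp only [(hGEO H hH).1, Finset.prod_const_one]
  -- the first factor
  have e1 := hSPL L H θ hH h0 (by linarith)
  rw [← hp] at e1
  -- the second factor
  have e2 : ENNReal.ofReal (1 - θ ^ 2 * (1 + 1 / (H : ℝ)) ^ 2) ^ (L * L) ≤
      Ex H (fun x : Bool × Fin L × Fin (L + 1) → ℕ =>
        ENNReal.ofReal (∏ q ∈ VP L, (1 - p ^ 2) ^ n2 (ga x) (gc x) q)) := by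
    have h2 : ENNReal.ofReal (1 - θ ^ 2 * (1 + 1 / (H : ℝ)) ^ 2) ≤ 1 := by
      rw [← ENNReal.ofReal_one]
      apply ENNReal.ofReal_le_ofReal
      have : 0 ≤ θ ^ 2 * (1 + 1 / (H : ℝ)) ^ 2 := by positivity
      linarith
    refine (pow_le_pow_right_of_le_one' h2 (KEX_VP L)).trans ?_
    rw [← Finset.prod_const]
    have h3 : ∀ x : Bool × Fin L × Fin (L + 1) → ℕ,
        ENNReal.ofReal (∏ q ∈ VP L, (1 - p ^ 2) ^ n2 (ga x) (gc x) q) =
        ∏ q ∈ VP L, ENNReal.ofReal ((1 - p ^ 2) ^ n2 (ga x) (gc x) q) := by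
      intro x
      refine ENNReal.ofReal_prod_of_nonneg fun q _ => pow_nonneg ?_ _
      linarith [(hpr 2).2]
    simp only [h3]
    refine le_trans ?_ ((hHAR _ H hH).2 _ (VP L) (fun q x =>
      ENNReal.ofReal ((1 - p ^ 2) ^ n2 (ga x) (gc x) q)) ?_)
    · refine Finset.prod_le_prod' fun q hq => ?_
      have h4 := hBER _ H (fun x : Bool × Fin L × Fin (L + 1) → ℕ => n2 (ga x) (gc x) q) (p ^ 2)
        (((H : ℝ) * (H + 1)) ^ 2) hH (hpr 2).1 (hpr 2).2 (by positivity) ?_ hone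
      · refine le_trans (le_of_eq ?_) h4
        congr 1
        rw [hp]
        field_simp
      · refine (hKR2 L H q hH hq).trans (le_of_eq ?_)
        rw [ENNReal.ofReal_pow (by positivity), ENNReal.ofReal_mul (by positivity),
          ENNReal.ofReal_add (by positivity) (by positivity), ENNReal.ofReal_natCast,
          ENNReal.ofReal_one]
    · intro q _
      refine KEX_anti ?_ (hpr 2).1 (hpr 2).2
      intro x y hxy
      exact KEX_n2 (fun b j => hxy _) (fun b j => hxy _) q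
  -- the third factor
  have e3 : ∏ R ∈ CN L, ENNReal.ofReal (1 - (144 * θ) ^ R.card) ≤
      Ex H (fun x : Bool × Fin L × Fin (L + 1) → ℕ =>
        ENNReal.ofReal (∏ R ∈ CN L, (1 - p ^ R.card) ^ n3 (ga x) (gc x) R)) := by
    have h3 : ∀ x : Bool × Fin L × Fin (L + 1) → ℕ,
        ENNReal.ofReal (∏ R ∈ CN L, (1 - p ^ R.card) ^ n3 (ga x) (gc x) R) =
        ∏ R ∈ CN L, ENNReal.ofReal ((1 - p ^ R.card) ^ n3 (ga x) (gc x) R) := by
      intro x
      refine ENNReal.ofReal_prod_of_nonneg fun R _ => pow_nonneg ?_ _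
      linarith [(hpr R.card).2]
    simp only [h3]
    refine le_trans ?_ ((hHAR _ H hH).2 _ (CN L) (fun R x =>
      ENNReal.ofReal ((1 - p ^ R.card) ^ n3 (ga x) (gc x) R)) ?_)
    · refine Finset.prod_le_prod' fun R hR => ?_
      have h4 := hBER _ H (fun x : Bool × Fin L × Fin (L + 1) → ℕ => n3 (ga x) (gc x) R)
        (p ^ R.card) ((144 * (H : ℝ) ^ 2) ^ R.card) hH (hpr _).1 (hpr _).2 (by positivity) ?_ hone
      · refine le_trans (le_of_eq ?_) h4
        congr 1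
        rw [← mul_pow, hp]
        congr 2
        field_simp
      · refine (hKR3 L H R hH).trans (le_of_eq ?_)
        rw [ENNReal.ofReal_pow (by positivity), ENNReal.ofReal_mul (by positivity),
          ENNReal.ofReal_pow (by positivity), ENNReal.ofReal_natCast]
        norm_num
    · intro R _
      refine KEX_anti ?_ (hpr _).1 (hpr _).2
      intro x y hxy
      exact KEX_n3 (fun b j => hxy _) (fun b j => hxy _) R
  -- antitone factors
  have a1 : Antitone (fun x : Bool × Fin L × Fin (L + 1) → ℕ =>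
      ENNReal.ofReal (∏ u, (1 - p) ^ n1 (ga x) (gc x) u)) := by
    intro x y hxy
    apply ENNReal.ofReal_le_ofReal
    refine Finset.prod_le_prod (fun u _ => pow_nonneg (by linarith) _) fun u _ => ?_
    exact pow_le_pow_of_le_one (by linarith) (by linarith)
      (KEX_n1 (fun b j => hxy _) (fun b j => hxy _) u)
  have a2 : Antitone (fun x : Bool × Fin L × Fin (L + 1) → ℕ =>
      ENNReal.ofReal (∏ q ∈ VP L, (1 - p ^ 2) ^ n2 (ga x) (gc x) q)) := by
    intro x y hxy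
    apply ENNReal.ofReal_le_ofReal
    have := hpr 2
    refine Finset.prod_le_prod (fun u _ => pow_nonneg (by linarith) _) fun u _ => ?_
    exact pow_le_pow_of_le_one (by linarith) (by linarith)
      (KEX_n2 (fun b j => hxy _) (fun b j => hxy _) u)
  have a3 : Antitone (fun x : Bool × Fin L × Fin (L + 1) → ℕ =>
      ENNReal.ofReal (∏ R ∈ CN L, (1 - p ^ R.card) ^ n3 (ga x) (gc x) R)) := by
    intro x y hxy
    apply ENNReal.ofReal_le_ofReal
    refine Finset.prod_le_prod (fun R _ => pow_nonneg (by linarith [(hpr R.card).2]) _) fun R _ => ?_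
    have := hpr R.card
    exact pow_le_pow_of_le_one (by linarith) (by linarith)
      (KEX_n3 (fun b j => hxy _) (fun b j => hxy _) R)
  have n1' : ∀ x : Bool × Fin L × Fin (L + 1) → ℕ, 0 ≤ ∏ u, (1 - p) ^ n1 (ga x) (gc x) u :=
    fun x => Finset.prod_nonneg fun u _ => pow_nonneg (by linarith) _
  have n2' : ∀ x : Bool × Fin L × Fin (L + 1) → ℕ,
      0 ≤ ∏ q ∈ VP L, (1 - p ^ 2) ^ n2 (ga x) (gc x) q :=
    fun x => Finset.prod_nonneg fun u _ => pow_nonneg (by linarith [(hpr 2).2]) _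
  have n3' : ∀ R : Finset (Fin L × Fin L), 3 ≤ R.card → 0 ≤ 1 - (144 * θ) ^ R.card := by
    intro R _
    have : (144 * θ) ^ R.card ≤ 1 := pow_le_one₀ (by positivity) (by linarith)
    linarith
  -- the left side
  have hl : ENNReal.ofReal (lb L H θ) =
      ENNReal.ofReal ((1 - 4 * θ + 17 * θ ^ 2 - 763 * θ ^ 3) ^ (L * (L / 2)) * (1 - 2 * θ) ^ L *
        (1 - θ / H) ^ (2 * (L * L))) *
      ENNReal.ofReal (1 - θ ^ 2 * (1 + 1 / (H : ℝ)) ^ 2) ^ (L * L) *
      ∏ R ∈ CN L, ENNReal.ofReal (1 - (144 * θ) ^ R.card) := by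
    have hθH : θ / H ≤ 1 := by
      rw [div_le_one hHp]
      linarith
    have q1 : 0 ≤ 1 - 4 * θ + 17 * θ ^ 2 - 763 * θ ^ 3 := by
      have : θ ^ 3 ≤ 1 / 1000 * θ ^ 2 := by
        have h2 : θ ^ 3 = θ * θ ^ 2 := by ring
        rw [h2]
        exact mul_le_mul_of_nonneg_right h1 (by positivity)
      nlinarith [sq_nonneg θ]
    have q2 : 0 ≤ 1 - 2 * θ := by linarith
    have q3 : 0 ≤ 1 - θ / H := by linarith
    have q5 : (1 + 1 / (H : ℝ)) ≤ 2 := by
      have : 1 / (H : ℝ) ≤ 1 := by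
        rw [div_le_one hHp]
        exact hHr
      linarith
    have q6 : (0 : ℝ) ≤ 1 + 1 / (H : ℝ) := by positivity
    have q4 : 0 ≤ 1 - θ ^ 2 * (1 + 1 / (H : ℝ)) ^ 2 := by
      have h2 : (1 + 1 / (H : ℝ)) ^ 2 ≤ 2 ^ 2 := pow_le_pow_left₀ q6 q5 2
      have h3 : θ ^ 2 ≤ (1 / 1000) ^ 2 := pow_le_pow_left₀ h0 h1 2
      have h4 : θ ^ 2 * (1 + 1 / (H : ℝ)) ^ 2 ≤ (1 / 1000) ^ 2 * 2 ^ 2 :=
        mul_le_mul h3 h2 (by positivity) (by positivity)
      norm_num at h4 ⊢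
      linarith
    unfold lb
    rw [ENNReal.ofReal_mul (by positivity), ENNReal.ofReal_mul (by positivity),
      ENNReal.ofReal_pow q4, ENNReal.ofReal_prod_of_nonneg]
    intro R hR
    exact n3' R (Finset.mem_filter.1 hR).2.2
  rw [hl]
  calc _ ≤ Ex H (fun x : Bool × Fin L × Fin (L + 1) → ℕ =>
          ENNReal.ofReal (∏ u, (1 - p) ^ n1 (ga x) (gc x) u)) *
        Ex H (fun x : Bool × Fin L × Fin (L + 1) → ℕ =>
          ENNReal.ofReal (∏ q ∈ VP L, (1 - p ^ 2) ^ n2 (ga x) (gc x) q)) *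
        Ex H (fun x : Bool × Fin L × Fin (L + 1) → ℕ =>
          ENNReal.ofReal (∏ R ∈ CN L, (1 - p ^ R.card) ^ n3 (ga x) (gc x) R)) :=
        mul_le_mul' (mul_le_mul' e1 e2) e3
    _ ≤ Ex H (fun x : Bool × Fin L × Fin (L + 1) → ℕ =>
          ENNReal.ofReal (∏ u, (1 - p) ^ n1 (ga x) (gc x) u) *
          ENNReal.ofReal (∏ q ∈ VP L, (1 - p ^ 2) ^ n2 (ga x) (gc x) q)) *
        Ex H (fun x : Bool × Fin L × Fin (L + 1) → ℕ =>
          ENNReal.ofReal (∏ R ∈ CN L, (1 - p ^ R.card) ^ n3 (ga x) (gc x) R)) :=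
        mul_le_mul' ((hHAR _ H hH).1 _ _ a1 a2) le_rfl
    _ ≤ Ex H (fun x : Bool × Fin L × Fin (L + 1) → ℕ =>
          ENNReal.ofReal (∏ u, (1 - p) ^ n1 (ga x) (gc x) u) *
          ENNReal.ofReal (∏ q ∈ VP L, (1 - p ^ 2) ^ n2 (ga x) (gc x) q) *
          ENNReal.ofReal (∏ R ∈ CN L, (1 - p ^ R.card) ^ n3 (ga x) (gc x) R)) :=
        (hHAR _ H hH).1 _ _ (fun x y hxy => mul_le_mul' (a1 hxy) (a2 hxy)) a3
    _ = _ := by
        congr 1
        funext x
        unfold kap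
        rw [ENNReal.ofReal_mul (mul_nonneg (n1' x) (n2' x)), ENNReal.ofReal_mul (n1' x)]

end Pool.Agent.DSW
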