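import Pool.Agent.helper71.DSW.SpecC

set_option autoImplicit false

/-! Row dsw:TOP (helper98): the assembly. -/

namespace Pool.Agent.DSW

open Equiv Finset Function Pool.Agent.helper48.PP
open scoped ENNReal Classical

theorem TOP (hFIA : FIA_stmt) (hFS1 : FS1_stmt) (hMID : MID_stmt) : TOP_stmt := by
  obtain ⟨L₁, h1⟩ := hFIA
  obtain ⟨L₂, h2⟩ := hMID
  refine ⟨max (max L₁ L₂) 1, fun L hL => ?_⟩
  have hL1 : L₁ ≤ L := le_trans (le_trans (le_max_left _ _) (le_max_left _ _)) hL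
  have hL2 : L₂ ≤ L := le_trans (le_trans (le_max_right _ _) (le_max_left _ _)) hL
  have hL3 : 1 ≤ L := le_trans (le_max_right _ _) hL
  obtain ⟨n₀, hn₀⟩ := h1 L hL1
  obtain ⟨n, hn⟩ := h2 L hL2
  have hLL : 1 ≤ L * L := Nat.one_le_iff_ne_zero.2 (by positivity)
  obtain ⟨h3, h4⟩ := hFS1 (L * L - 1) (L * L) (grid L) (by omega)
  have h5 : L * L - 1 < n := by
    by_contra hcon
    rcases lt_or_eq_of_le (not_lt.1 hcon) with h | h
    · rw [h4 n h] at hn
      exact lt_irrefl _ hn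
    · rw [h] at hn
      exact lt_asymm hn h3
  refine ⟨n, max n₀ (n + 1), h5, ?_, h3, hn, fun m hm => hn₀ m ((le_max_left _ _).trans hm)⟩
  exact lt_of_lt_of_le (Nat.lt_succ_self n) (le_max_right _ _)

end Pool.Agent.DSW
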